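import Mathlib
import Pool.Agent.Helper80.CKMain

/-!
# MP_d34459_al: the coarse kernel of an irrational homomorphism is not a coarse group retract

`F₂` is the free group on two generators `a, b` (the generators `0, 1`), `d` the cancellation
metric, `φ : F₂ → ℝ` the homomorphism with `φ a = -1`, `φ b = β`, `K = φ⁻¹ [0,1)` and `F_K` the
free group on the set `K`. For no irrational `β > 1` is there a map `Ψ : F_K → K` and a real
number `D` with `d (Ψ k) k ≤ D` for all letters `k ∈ K` and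
`d (Ψ (w₁ w₂)) (Ψ w₁ Ψ w₂) ≤ D` for all `w₁, w₂ ∈ F_K`. In particular there is none with
`Ψ k = k` for all `k`.
-/

set_option autoImplicit false

namespace Pool.Agent.Results.MP_d34459_al.CoarseRetraction

/-- the free group on two generators `a = FreeGroup.of 0`, `b = FreeGroup.of 1` -/
abbrev F₂ := FreeGroup (Fin 2)

/-- `x` is a conjugate of one of `a, a⁻¹, b, b⁻¹` -/
def IsConjLetter (x : F₂) : Prop :=
  ∃ (g : F₂) (i : Fin 2), x = g * FreeGroup.of i * g⁻¹ ∨ x = g * (FreeGroup.of i)⁻¹ * g⁻¹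

/-- the cancellation norm: the least number of conjugates of `a, a⁻¹, b, b⁻¹` whose product
is `g` -/
noncomputable def cnorm (g : F₂) : ℕ :=
  sInf {n : ℕ | ∃ L : List F₂, L.length = n ∧ (∀ x ∈ L, IsConjLetter x) ∧ L.prod = g}

/-- the cancellation metric -/
noncomputable def d (g h : F₂) : ℝ := cnorm (g⁻¹ * h)

/-- the homomorphism `φ` with `φ a = -1` and `φ b = β` -/
noncomputable def phi (β : ℝ) : F₂ →* Multiplicative ℝ :=
  FreeGroup.lift ![Multiplicative.ofAdd (-1 : ℝ), Multiplicative.ofAdd β]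

/-- `K = φ⁻¹ [0,1)` -/
def K (β : ℝ) : Set F₂ := {g | Multiplicative.toAdd (phi β g) ∈ Set.Ico (0 : ℝ) 1}

open Pool.Agent.Helper80.CK (CC)

theorem exists_list (g : F₂) : ∃ L : List F₂, (∀ x ∈ L, IsConjLetter x) ∧ L.prod = g := by
  induction g using FreeGroup.induction_on with
  | C1 => exact ⟨[], by simp, by simp⟩
  | of i =>
    refine ⟨[FreeGroup.of i], ?_, by simp⟩
    intro x hx
    rw [List.mem_singleton] at hx
    exact ⟨1, i, Or.inl (by rw [hx]; group)⟩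
  | inv_of i _ =>
    refine ⟨[(FreeGroup.of i)⁻¹], ?_, by simp⟩
    intro x hx
    rw [List.mem_singleton] at hx
    exact ⟨1, i, Or.inr (by rw [hx]; group)⟩
  | mul x y hx hy =>
    obtain ⟨L, h1, h2⟩ := hx
    obtain ⟨L', h1', h2'⟩ := hy
    refine ⟨L ++ L', ?_, by rw [List.prod_append, h2, h2']⟩
    intro z hz
    rcases List.mem_append.mp hz with h | h
    · exact h1 z h
    · exact h1' z h

theorem cc_of_cnorm_le {g : F₂} {n : ℕ} (h : cnorm g ≤ n) : CC n g := by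
  obtain ⟨L0, h1, h2⟩ := exists_list g
  have hne : {n : ℕ | ∃ L : List F₂, L.length = n ∧ (∀ x ∈ L, IsConjLetter x) ∧
      L.prod = g}.Nonempty := ⟨L0.length, L0, rfl, h1, h2⟩
  obtain ⟨L, hL, hcl, hp⟩ := Nat.sInf_mem hne
  exact ⟨L, hL.le.trans h, hcl, hp⟩

theorem cc_of_d_le {g h : F₂} {D : ℝ} (hd : d g h ≤ D) : CC ⌊D⌋₊ (g⁻¹ * h) :=
  cc_of_cnorm_le (Nat.le_floor hd)

/-- **Theorem.** For every irrational `β > 1` there is no map `Ψ : F_K → K` which is, up to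
bounded distance for the cancellation metric, the identity on the letters and multiplicative. -/
theorem result (β : ℝ) (hβ : 1 < β) (hirr : Irrational β) :
    ¬ ∃ (Ψ : FreeGroup (K β) → K β) (D : ℝ),
      (∀ k : K β, d (Ψ (FreeGroup.of k)) k ≤ D) ∧
      ∀ w₁ w₂ : FreeGroup (K β), d (Ψ (w₁ * w₂)) (Ψ w₁ * Ψ w₂) ≤ D := by
  classical
  rintro ⟨Ψ, D, h1, h2⟩
  -- correct `Ψ` on the letters
  let n : ℕ := ⌊D⌋₊
  let Θ : FreeGroup (K β) → F₂ := fun w => if h : ∃ k : K β, w = FreeGroup.of k then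
    (h.choose : F₂) else (Ψ w : F₂)
  have hΘ : ∀ k : K β, Θ (FreeGroup.of k) = (k : F₂) := by
    intro k
    have h : ∃ k' : K β, FreeGroup.of k = FreeGroup.of k' := ⟨k, rfl⟩
    have e : Θ (FreeGroup.of k) = (h.choose : F₂) := dif_pos h
    rw [e]
    have := h.choose_spec
    rw [FreeGroup.of_injective this.symm]
  have hK : ∀ w, Θ w ∈ K β := by
    intro w
    by_cases h : ∃ k : K β, w = FreeGroup.of k
    · have e : Θ w = (h.choose : F₂) := dif_pos h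
      rw [e]
      exact h.choose.2
    · have e : Θ w = (Ψ w : F₂) := dif_neg h
      rw [e]
      exact (Ψ w).2
  have hΘΨ : ∀ w, CC n ((Ψ w : F₂)⁻¹ * Θ w) := by
    intro w
    by_cases h : ∃ k : K β, w = FreeGroup.of k
    · obtain ⟨k, rfl⟩ := h
      rw [hΘ]
      exact cc_of_d_le (h1 k)
    · have e : Θ w = (Ψ w : F₂) := dif_neg h
      rw [e, inv_mul_cancel]
      exact CC.one n
  refine Pool.Agent.Helper80.CK.main β hβ hirr (phi β) (by simp [phi]) (by simp [phi]) (K β)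
    (by ext w; simp [K, Set.mem_Ico]) ⟨Θ, n + (n + (n + n)), hK, hΘ, fun w₁ w₂ => ?_⟩
  have e1 : CC n ((Θ (w₁ * w₂))⁻¹ * Ψ (w₁ * w₂)) := by
    have := (hΘΨ (w₁ * w₂)).inv
    rwa [mul_inv_rev, inv_inv] at this
  have e2 : CC n ((Ψ (w₁ * w₂) : F₂)⁻¹ * (Ψ w₁ * Ψ w₂)) := cc_of_d_le (h2 w₁ w₂)
  have e3 : CC n ((Ψ w₂ : F₂)⁻¹ * ((Ψ w₁ : F₂)⁻¹ * Θ w₁) * Ψ w₂) := by
    have := (hΘΨ w₁).conj ((Ψ w₂ : F₂)⁻¹)
    rwa [inv_inv] at this
  have e4 : CC n ((Ψ w₂ : F₂)⁻¹ * Θ w₂) := hΘΨ w₂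
  have e5 := e1.mul (e2.mul (e3.mul e4))
  have e6 : (Θ (w₁ * w₂))⁻¹ * Ψ (w₁ * w₂) * ((Ψ (w₁ * w₂) : F₂)⁻¹ * (Ψ w₁ * Ψ w₂) *
      ((Ψ w₂ : F₂)⁻¹ * ((Ψ w₁ : F₂)⁻¹ * Θ w₁) * Ψ w₂ * ((Ψ w₂ : F₂)⁻¹ * Θ w₂))) =
      (Θ (w₁ * w₂))⁻¹ * (Θ w₁ * Θ w₂) := by group
  rw [e6] at e5
  exact e5

end Pool.Agent.Results.MP_d34459_al.CoarseRetraction
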